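import Pool.Agent.N990.PT.Stm

/-!
# PT/SYM (helper530): permutations of the colours
-/

set_option autoImplicit false

open MeasureTheory Filter
open scoped ENNReal Topology
open Pool.Agent.N988.EA

namespace Pool.Agent.N530.PT

open Pool.Agent.N990.PT

noncomputable section

variable {b q : ℕ}

private def Phi (p : ℕ → Fin b × Bool) (g : Equiv.Perm (Fin q)) (ω : VInf p → Fin q) :
    VInf p → Fin q := fun v => g (ω v)

private theorem phi_meas (p : ℕ → Fin b × Bool) (g : Equiv.Perm (Fin q)) :
    Measurable (Phi p g) :=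
  measurable_pi_lambda _ fun v => (Measurable.of_discrete (f := g)).comp (measurable_pi_apply v)

private theorem phi_repl (p : ℕ → Fin b × Bool) (g : Equiv.Perm (Fin q)) (n : ℕ)
    (ω : VInf p → Fin q) (s : Vert b n → Fin q) :
    Phi p g (repl p n ω s) = repl p n (Phi p g ω) (fun x => g (s x)) := by
  funext v
  unfold Phi repl
  by_cases h : ∃ x : Vert b n, inc p n (.inr x) = v
  · rw [dif_pos h, dif_pos h]
  · rw [dif_neg h, dif_neg h]

private theorem act_perm (g : Equiv.Perm (Fin q)) (β : ℝ) (n : ℕ) (τ : Bool → Fin q)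
    (s : Vert b n → Fin q) :
    Pool.Agent.N990.PT.act β n (Sum.elim (fun t => g (τ t)) (fun x => g (s x))) =
      Pool.Agent.N990.PT.act β n (Sum.elim τ s) := by
  unfold Pool.Agent.N990.PT.act
  congr 1
  refine Finset.sum_congr rfl fun e _ => ?_
  have h : ∀ x : Pt b n, (Sum.elim (fun t => g (τ t)) (fun x => g (s x)) : Pt b n → Fin q) x =
      g ((Sum.elim τ s : Pt b n → Fin q) x) := by
    intro x
    cases x <;> rfl
  rw [h, h]
  simp only [EmbeddingLike.apply_eq_iff_eq]

private theorem Zf_perm (g : Equiv.Perm (Fin q)) (β : ℝ) (n : ℕ) (τ : Bool → Fin q) :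
    Zf b q β n (fun t => g (τ t)) = Zf b q β n τ := by
  unfold Zf
  refine (Fintype.sum_equiv (Equiv.arrowCongr (Equiv.refl (Vert b n)) g) _ _ fun s => ?_).symm
  have h := act_perm (b := b) g β n τ s
  rw [← h]
  rfl

private theorem gw_perm (g : Equiv.Perm (Fin q)) (β : ℝ) (n : ℕ) (τ : Bool → Fin q)
    (s : Vert b n → Fin q) :
    gw β n (fun t => g (τ t)) (fun x => g (s x)) = gw β n τ s := by
  unfold gw
  rw [act_perm, Zf_perm]

private theorem ends_meas (p : ℕ → Fin b × Bool) (n : ℕ) :
    Measurable (ends p n : (VInf p → Fin q) → Bool → Fin q) :=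
  measurable_pi_lambda _ fun _ => measurable_pi_apply _

private theorem gibbs_map (h2 : S_GEO) (β : ℝ) (p : ℕ → Fin b × Bool) (g : Equiv.Perm (Fin q))
    (μ : Measure (VInf p → Fin q)) (hμ : IsGibbs β p μ) : IsGibbs β p (μ.map (Phi p g)) := by
  have := hμ.prob
  have hm := phi_meas p g
  refine ⟨Measure.isProbabilityMeasure_map hm.aemeasurable, ?_⟩
  intro n f hf hb
  have hrm : ∀ s, Measurable fun ω : VInf p → Fin q => repl p n ω s :=
    (h2 b q p).2.2.2.2.2.2.2 n
  have hF : Measurable fun ω : VInf p → Fin q => ∑ s : Vert b n → Fin q,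
      gw β n (fun t => ω (inc p n (.inl t))) s * f (repl p n ω s) := by
    refine Finset.measurable_sum _ fun s _ => ?_
    refine Measurable.mul ?_ (hf.comp (hrm s))
    exact (Measurable.of_discrete (f := fun τ : Bool → Fin q => gw β n τ s)).comp (ends_meas p n)
  rw [integral_map hm.aemeasurable hf.aestronglyMeasurable,
    integral_map hm.aemeasurable hF.aestronglyMeasurable]
  obtain ⟨C, hC⟩ := hb
  rw [hμ.dlr n (fun ω => f (Phi p g ω)) (hf.comp hm) ⟨C, fun ω => hC _⟩]
  congr 1
  funext ω
  refine Fintype.sum_equiv (Equiv.arrowCongr (Equiv.refl (Vert b n)) g) _ _ fun s => ?_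
  have h := gw_perm (b := b) g β n (fun t => ω (inc p n (.inl t))) s
  rw [phi_repl, ← h]
  rfl

theorem t_sym (h1 : Pool.Agent.N990.PT.S_MIX) (h2 : Pool.Agent.N990.PT.S_GEO) :
    Pool.Agent.N990.PT.S_SYM := by
  intro b q hq β p hK π hπ hlim g k
  obtain ⟨-, hex⟩ := h1 b q hq β p hK π hπ hlim
  have hG := gibbs_map h2 β p g (π k) (hπ k)
  obtain ⟨t, ⟨hts, htμ⟩, -⟩ := hex _ hG
  have hprob : ∀ j, IsProbabilityMeasure (π j) := fun j => (hπ j).prob
  have hmE : ∀ (n : ℕ) (j : Fin q), MeasurableSet {ω : VInf p → Fin q | ends p n ω = fun _ => j} :=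
    fun n j => (ends_meas p n) (measurableSet_singleton _)
  have ht1 : ∀ j, t j ≤ 1 := by
    intro j
    rw [← hts]
    exact Finset.single_le_sum (fun _ _ => bot_le) (Finset.mem_univ j)
  have htop : ∀ j, t j ≠ ∞ := fun j => ne_top_of_le_ne_top ENNReal.one_ne_top (ht1 j)
  -- the value at the set `ends n = (g k, g k)`
  have hval : ∀ n, ∑ j, (t j).toReal * (π j).real {ω | ends p n ω = fun _ => g k} =
      (π k).real {ω | ends p n ω = fun _ => k} := by
    intro n
    have e1 : ((π k).map (Phi p g)).real {ω | ends p n ω = fun _ => g k} =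
        (π k).real {ω | ends p n ω = fun _ => k} := by
      rw [Measure.real, Measure.map_apply (phi_meas p g) (hmE n (g k)), Measure.real]
      congr 2
      ext ω
      constructor
      · intro h
        funext s
        exact g.injective (congrFun h s)
      · intro h
        funext s
        exact congrArg g (congrFun h s)
    rw [← e1, htμ, Measure.real, Measure.finsetSum_apply, ENNReal.toReal_sum]
    · refine Finset.sum_congr rfl fun j _ => ?_
      rw [Measure.smul_apply, smul_eq_mul, ENNReal.toReal_mul]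
      rfl
    · intro j _
      rw [Measure.smul_apply, smul_eq_mul]
      exact ENNReal.mul_ne_top (htop j) (measure_ne_top _ _)
  have hlim2 : ∀ j, Tendsto (fun n => (π j).real {ω | ends p n ω = fun _ => g k}) atTop
      (𝓝 (if j = g k then 1 else 0)) := by
    intro j
    by_cases hj : j = g k
    · rw [if_pos hj, ← hj]
      exact hlim j
    · rw [if_neg hj]
      have hle : ∀ n, (π j).real {ω | ends p n ω = fun _ => g k} ≤
          1 - (π j).real {ω | ends p n ω = fun _ => j} := by
        intro n
        have hd : Disjoint {ω : VInf p → Fin q | ends p n ω = fun _ => g k}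
            {ω | ends p n ω = fun _ => j} := by
          rw [Set.disjoint_left]
          intro ω h3 h4
          have h5 : (fun _ : Bool => g k) = fun _ => j := h3.symm.trans h4
          exact hj (congrFun h5 true).symm
        have h6 := measureReal_union (μ := π j) hd (hmE n j)
        have h7 : (π j).real ({ω : VInf p → Fin q | ends p n ω = fun _ => g k} ∪
            {ω | ends p n ω = fun _ => j}) ≤ 1 := measureReal_le_one
        linarith
      refine squeeze_zero (fun n => measureReal_nonneg) hle ?_
      have h8 := (tendsto_const_nhds (x := (1 : ℝ))).sub (hlim j)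
      rw [sub_self] at h8
      exact h8
  have hone : (t (g k)).toReal = 1 := by
    have h3 : Tendsto (fun n => ∑ j, (t j).toReal * (π j).real {ω | ends p n ω = fun _ => g k})
        atTop (𝓝 (∑ j, (t j).toReal * (if j = g k then 1 else 0))) :=
      tendsto_finsetSum _ fun j _ => (hlim2 j).const_mul _
    have h4 : ∑ j, (t j).toReal * (if j = g k then (1 : ℝ) else 0) = (t (g k)).toReal := by
      simp
    rw [h4] at h3
    refine tendsto_nhds_unique h3 ?_
    refine (hlim k).congr fun n => (hval n).symm
  have hone' : t (g k) = 1 := by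
    rw [← ENNReal.toReal_eq_one_iff]
    exact hone
  have hzero : ∀ j, j ≠ g k → t j = 0 := by
    intro j hj
    have h3 : t (g k) + ∑ i ∈ Finset.univ.erase (g k), t i = 1 := by
      rw [Finset.add_sum_erase _ _ (Finset.mem_univ _)]
      exact hts
    rw [hone'] at h3
    have h4 : ∑ i ∈ Finset.univ.erase (g k), t i = 0 := by
      have h5 : (1 : ℝ≥0∞) + ∑ i ∈ Finset.univ.erase (g k), t i = 1 + 0 := by
        rw [h3, add_zero]
      exact (ENNReal.add_right_inj ENNReal.one_ne_top).1 h5
    exact (Finset.sum_eq_zero_iff.1 h4) j (Finset.mem_erase.2 ⟨hj, Finset.mem_univ _⟩)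
  change (π k).map (Phi p g) = π (g k)
  rw [htμ, Finset.sum_eq_single (g k)]
  · rw [hone', one_smul]
  · intro j _ hj
    rw [hzero j hj, zero_smul]
  · intro h
    exact absurd (Finset.mem_univ _) h

end

end Pool.Agent.N530.PT
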